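import Pool.Agent.H98.ALFinal

/-!
# MP_885423_lc: linear and mixed-integer programs which determine all distances approximately need
# a cubic number of inequalities

Model (`Milp`). The data are the weights `W` of the pairs of the `n` vertices of a graph, the unknown
`x` is an element of a real vector space, the constraints are affine jointly in `W` and `x`: any
number of linear equations, `r` linear inequalities, `q` binary variables. The output is an affine
function of `(W, x)`. The program is correct up to the factor `ρ` on `W` if every feasible `x` has
outputs `≤ ρ * dist W u v` and some feasible `x` has outputs `≥ dist W u v` (for all pairs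
simultaneously), so that the distances are found up to the factor `ρ` by maximising the output. For
example `D u v ≤ W u v`, `D u v ≤ D u w + D w v` is a correct linear program for `ρ = 1` with
`O(n ^ 3)` inequalities. Linear formulations of the cone of (semi)metrics with arbitrary auxiliary
variables, and programs with gates `g = min (a, b)`, where `a`, `b` and the outputs are affine forms
of the weights with arbitrary signs plus nonnegative combinations of earlier gates, are special
cases (the constraints are `g ≤ a`, `g ≤ b`); a gate `max` is one binary variable.

Theorem. Let `ρ ≥ 1`, `L ≥ 10 ρ`. If the program is correct up to the factor `ρ` for all undirected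
graphs with all weights in `[1, L]`, then `n (n - 1) (n - 2) ≤ (650 ρ) ^ 2 * 2 ^ q * (r + n ^ 2 + 1)`.
So `n ^ (3 - o(1))` inequalities are necessary even for approximations up to a factor `n ^ o(1)`, for
undirected graphs with weights in `[1, n ^ o(1)]`, and with `o(log n)` binary variables.

Proof. Let `K` be the set of the `(W, x)` with `W` symmetric with entries in `[1, L]` and `x` feasible
for `W`. It is a union of `2 ^ q` polyhedra, each with `r + n (n - 1)` inequalities. For a triple
`t = (i, k, j)` the function `ρ (W i k + W k j) - D i j` is nonnegative on `K` (`D` is the output), so
on each polyhedron it is a nonnegative combination of `1` and of the slacks of the inequalities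
(Farkas). For a set `s` of vertices let `W s` have the entry `1` for pairs on the same side of the cut
and `L` for the other pairs, and take the feasible point with outputs `≥ dist`. The values at these
points are a matrix `S t s` which is a sum of `2 ^ q (r + n ^ 2 + 1)` nonnegative matrices of rank one.
We have `S t s ≤ 2 ρ L`, `S t s ≥ 2 ρ L - ρ` if the cut `s` separates `k` from `i` and `j`,
`S t s ≤ (ρ - 1) L + ρ` if it separates `i` and `j`, and `S t s ≤ 2 ρ - 1` otherwise. Give the pair
`(t, s)` the weight `1` if `s` separates `k` from `i` and `j` and the weight `- c` otherwise,
`c = 1 + 2 / (5 ρ)`. The inner product of the weights with `S` is at least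
`2 ^ n * n (n - 1) (n - 2) * 7 L / 40`. The inner product of the weights with a nonnegative matrix of
rank one with entries at most `2 ρ L` is at most `2 ρ L * 2 ^ n * O(ρ)`: it suffices to consider
matrices with entries `0, 1`, and there the main point is the following lemma (`comb3`). If `S` is a
set of cuts and `𝒯` a set of triples such that for every `(i, k, j) ∈ 𝒯` at least `(1 / 2 + γ) |S|` of
the cuts in `S` separate `k` from `i` and `j`, then `|𝒯| |S| ≤ 1200 * 2 ^ n / γ ^ 2` (although there
are `n ^ 3` triples, and one quarter of all cuts separates `k` from `i` and `j`). It is proved by
taking a maximal family of nearly disjoint triples in `𝒯` (exponential moments) and by a second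
moment argument for the triples which share a vertex.
-/

set_option autoImplicit false

namespace Pool.Agent.H98.Old.ApproxLinearResult

open Pool.Agent.APM54 Pool.Agent.H98.AL

theorem result {n r q : ℕ} {ρ L : ℝ} (hρ : 1 ≤ ρ) (hL : 10 * ρ ≤ L) (P : Milp n r q)
    (h : ∀ W : Fin n → Fin n → ℝ, (∀ u, W u u = 0) → (∀ u v, W u v = W v u) →
      (∀ u v, u ≠ v → 1 ≤ W u v ∧ W u v ≤ L) → P.Correct ρ W) :
    (n * (n - 1) * (n - 2) : ℝ) ≤ (650 * ρ) ^ 2 * (2 ^ q * (r + n ^ 2 + 1)) :=
  milp_bound hρ hL P h

end Pool.Agent.H98.Old.ApproxLinearResult
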