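import Mathlib
import Pool.Agent.H98.ConicCount

/-!
# A cubic lower bound for linear and second-order cone formulations of APSP

The set of all distance matrices of digraphs on `n` vertices with nonnegative real edge weights is
a polyhedral cone. We show that every description of this set as a projection of the feasible set
of a second-order cone program (arbitrarily many auxiliary variables, arbitrarily many linear
equations, `r₁` linear inequalities and `r₂` second-order cone constraints of arbitrary dimensions)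
satisfies `n (n-1) (n-2) ≤ 9 r₁ + 36 r₂`.
-/

namespace Pool.Agent.H98.Old.ConicFormulationResult

open Finset Filter Topology

/-- Total weight of the walk `u → l₁ → ⋯ → lₖ → v`. -/
def walkWeight {n : ℕ} (W : Fin n → Fin n → ℝ) : Fin n → List (Fin n) → Fin n → ℝ
  | u, [], v => W u v
  | u, x :: l, v => W u x + walkWeight W x l v

/-- The distance matrix of the weighted complete digraph with edge weights `W`: the diagonal is
`0`, and off the diagonal it is the infimum of the total weights of the walks from `u` to `v`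
(for nonnegative weights this is the minimum weight of a path from `u` to `v`). -/
noncomputable def dist {n : ℕ} (W : Fin n → Fin n → ℝ) (u v : Fin n) : ℝ :=
  if u = v then 0 else ⨅ l : List (Fin n), walkWeight W u l v

variable {n : ℕ}

theorem walkWeight_nonneg {W : Fin n → Fin n → ℝ} (hW : ∀ u v, 0 ≤ W u v) (l : List (Fin n)) :
    ∀ u v, 0 ≤ walkWeight W u l v := by
  induction l with
  | nil => intro u v; exact hW u v
  | cons x l ih => intro u v; exact add_nonneg (hW u x) (ih x v)

theorem walkWeight_append (W : Fin n → Fin n → ℝ) (l m : List (Fin n)) (x : Fin n) :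
    ∀ u v, walkWeight W u (l ++ x :: m) v = walkWeight W u l x + walkWeight W x m v := by
  induction l with
  | nil => intro u v; rfl
  | cons y l ih =>
    intro u v
    change W u y + walkWeight W y (l ++ x :: m) v = W u y + walkWeight W y l x + _
    rw [ih]; ring

theorem bddBelow_walk {W : Fin n → Fin n → ℝ} (hW : ∀ u v, 0 ≤ W u v) (u v : Fin n) :
    BddBelow (Set.range fun l : List (Fin n) => walkWeight W u l v) :=
  ⟨0, by rintro _ ⟨l, rfl⟩; exact walkWeight_nonneg hW l u v⟩

/-- Distance matrices satisfy the triangle inequality. -/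
theorem dist_triangle {W : Fin n → Fin n → ℝ} (hW : ∀ u v, 0 ≤ W u v) (u v w : Fin n)
    (huv : u ≠ v) (hvw : v ≠ w) (huw : u ≠ w) : dist W u w ≤ dist W u v + dist W v w := by
  unfold dist
  rw [if_neg huv, if_neg hvw, if_neg huw]
  refine le_of_forall_pos_le_add fun ε hε => ?_
  obtain ⟨l, hl⟩ := exists_lt_of_ciInf_lt (lt_add_of_pos_right
    (⨅ l : List (Fin n), walkWeight W u l v) (half_pos hε))
  obtain ⟨m, hm⟩ := exists_lt_of_ciInf_lt (lt_add_of_pos_right
    (⨅ l : List (Fin n), walkWeight W v l w) (half_pos hε))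
  have h := ciInf_le (bddBelow_walk hW u w) (l ++ v :: m)
  rw [walkWeight_append] at h
  linarith

/-- A matrix with zero diagonal, nonnegative entries and the triangle inequality is its own
distance matrix. -/
theorem dist_eq_self {D : Fin n → Fin n → ℝ} (h0 : ∀ u, D u u = 0) (hD : ∀ u v, 0 ≤ D u v)
    (htri : ∀ u v w, D u w ≤ D u v + D v w) : dist D = D := by
  have key : ∀ (l : List (Fin n)) (u v : Fin n), D u v ≤ walkWeight D u l v := by
    intro l
    induction l with
    | nil => intro u v; exact le_refl _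
    | cons x l ih =>
      intro u v
      exact (htri u x v).trans (add_le_add (le_refl _) (ih x v))
  funext u v
  unfold dist
  split_ifs with h
  · rw [h, h0]
  · exact le_antisymm (ciInf_le (bddBelow_walk hD u v) []) (le_ciInf fun l => key l u v)

/-- Cut matrices. -/
def cutD (s : Fin n → Bool) (u v : Fin n) : ℝ := if s u = true ∧ s v = false then 1 else 0

theorem cutD_dist (s : Fin n → Bool) : dist (cutD s) = cutD s := by
  apply dist_eq_self
  · intro u
    unfold cutD
    cases s u <;> simp
  · intro u v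
    unfold cutD
    split_ifs <;> norm_num
  · intro u v w
    unfold cutD
    cases s u <;> cases s v <;> cases s w <;> simp

theorem cutD_nonneg (s : Fin n → Bool) (u v : Fin n) : 0 ≤ cutD s u v := by
  unfold cutD
  split_ifs <;> norm_num

open Pool.Agent.H98.ConicCount

/-- The slack of the triangle inequality of `t`. -/
def slack (t : Tri n) (D : Fin n → Fin n → ℝ) : ℝ := D (t 0) (t 1) + D (t 1) (t 2) - D (t 0) (t 2)

theorem slack_cut (t : Tri n) (s : Fin n → Bool) : slack t (cutD s) = if SepBy t s then 1 else 0 := by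
  by_cases h : SepBy t s
  · rw [if_pos h]
    obtain ⟨h1, h2⟩ := h
    unfold slack cutD
    rw [h1, h2]
    cases s (t 1) <;> simp
  · rw [if_neg h]
    unfold slack cutD
    unfold SepBy at h
    revert h
    cases s (t 0) <;> cases s (t 1) <;> cases s (t 2) <;> simp

/-- Equality case of the averaged Cauchy–Schwarz inequality. -/
theorem avg_ray {ι E : Type*} [NormedAddCommGroup E] [InnerProductSpace ℝ E] (Z : Finset ι)
    (z : ι → E) (τ : ι → ℝ) (c : ℝ) (hc : 0 < c) (hτ : ∀ s ∈ Z, ‖z s‖ ≤ τ s)
    (heq : ‖c • ∑ s ∈ Z, z s‖ = c * ∑ s ∈ Z, τ s) :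
    ∀ s ∈ Z, (c * ∑ s ∈ Z, τ s) • z s = τ s • (c • ∑ s ∈ Z, z s) := by
  set zb := c • ∑ s ∈ Z, z s with hzb
  set τb := c * ∑ s ∈ Z, τ s with hτb
  have hτ0 : ∀ s ∈ Z, 0 ≤ τ s := fun s hs => (norm_nonneg _).trans (hτ s hs)
  have hle : ∀ s ∈ Z, inner ℝ (z s) zb ≤ τ s * τb := by
    intro s hs
    refine (real_inner_le_norm _ _).trans ?_
    rw [heq]
    exact mul_le_mul_of_nonneg_right (hτ s hs)
      (mul_nonneg hc.le (sum_nonneg hτ0))
  have hsum : ∑ s ∈ Z, inner ℝ (z s) zb = ∑ s ∈ Z, τ s * τb := by
    have h1 : c * ∑ s ∈ Z, inner ℝ (z s) zb = c * ∑ s ∈ Z, τ s * τb := by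
      rw [← sum_inner, ← sum_mul, ← real_inner_smul_left, ← hzb, real_inner_self_eq_norm_sq, heq,
        ← mul_assoc, ← hτb]
      ring
    exact mul_left_cancel₀ hc.ne' h1
  have heach := (sum_eq_sum_iff_of_le hle).1 hsum
  intro s hs
  have h1 := heach s hs
  have h2 : ‖τb • z s - τ s • zb‖ ^ 2 ≤ 0 := by
    rw [norm_sub_sq_real, norm_smul, norm_smul, real_inner_smul_left, real_inner_smul_right, h1,
      heq, mul_pow, mul_pow, Real.norm_eq_abs, Real.norm_eq_abs, sq_abs, sq_abs]
    have h3 : ‖z s‖ ^ 2 ≤ τ s ^ 2 := by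
      have := hτ s hs
      exact pow_le_pow_left₀ (norm_nonneg _) this 2
    nlinarith [mul_le_mul_of_nonneg_left h3 (sq_nonneg τb)]
  have h3 : τb • z s - τ s • zb = 0 := by
    rw [← norm_eq_zero]
    exact pow_eq_zero_iff (two_ne_zero) |>.1 (le_antisymm h2 (sq_nonneg _))
  exact sub_eq_zero.1 h3

theorem affine_combo {X : Type*} [AddCommGroup X] [Module ℝ X] (φ : X →ₗ[ℝ] ℝ) (d r : ℝ)
    (x y : X) : φ ((1 + r) • x - r • y) + d = (1 + r) * (φ x + d) - r * (φ y + d) := by
  rw [map_sub, map_smul, map_smul, smul_eq_mul, smul_eq_mul]; ring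

theorem affine_comboE {X E : Type*} [AddCommGroup X] [Module ℝ X] [AddCommGroup E] [Module ℝ E]
    (φ : X →ₗ[ℝ] E) (d : E) (r : ℝ) (x y : X) :
    φ ((1 + r) • x - r • y) + d = (1 + r) • (φ x + d) - r • (φ y + d) := by
  rw [map_sub, map_smul, map_smul]; module

/-- **Cubic lower bound for conic formulations of APSP.** Let the set of all distance matrices of
nonnegatively weighted digraphs on `n` vertices be written as the set of all matrices
`P x + D₀`, where `x` ranges over the vectors of a real vector space `X` that satisfy arbitrarily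
many linear equations `eqn e x = rhs e`, the `r₁ = |ι₁|` linear inequalities `0 ≤ a l x + b l`, and
the `r₂ = |ι₂|` second-order cone constraints `‖A l x + c l‖ ≤ f l x + g l`. Then
`n (n-1) (n-2) ≤ 9 r₁ + 36 r₂`. -/
theorem result (n : ℕ) (X : Type*) [AddCommGroup X] [Module ℝ X]
    (κ : Type*) (eqn : κ → X →ₗ[ℝ] ℝ) (rhs : κ → ℝ)
    (ι₁ : Type*) [Fintype ι₁] (a : ι₁ → X →ₗ[ℝ] ℝ) (b : ι₁ → ℝ)
    (ι₂ : Type*) [Fintype ι₂] (dim : ι₂ → ℕ)
    (A : ∀ l, X →ₗ[ℝ] EuclideanSpace ℝ (Fin (dim l))) (c : ∀ l, EuclideanSpace ℝ (Fin (dim l)))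
    (f : ι₂ → X →ₗ[ℝ] ℝ) (g : ι₂ → ℝ)
    (P : X →ₗ[ℝ] (Fin n → Fin n → ℝ)) (D₀ : Fin n → Fin n → ℝ)
    (h : {D | ∃ x, (∀ e, eqn e x = rhs e) ∧ (∀ l, 0 ≤ a l x + b l) ∧
          (∀ l, ‖A l x + c l‖ ≤ f l x + g l) ∧ P x + D₀ = D} =
        {D | ∃ W : Fin n → Fin n → ℝ, (∀ u v, 0 ≤ W u v) ∧ dist W = D}) :
    n * (n - 1) * (n - 2) ≤ 9 * Fintype.card ι₁ + 36 * Fintype.card ι₂ := by
  classical
  set Feas : X → Prop := fun x => (∀ e, eqn e x = rhs e) ∧ (∀ l, 0 ≤ a l x + b l) ∧
    (∀ l, ‖A l x + c l‖ ≤ f l x + g l) with hFeas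
  -- points over the cut matrices
  have hex : ∀ s : Fin n → Bool, ∃ x, Feas x ∧ P x + D₀ = cutD s := by
    intro s
    have : cutD s ∈ {D | ∃ x, (∀ e, eqn e x = rhs e) ∧ (∀ l, 0 ≤ a l x + b l) ∧
          (∀ l, ‖A l x + c l‖ ≤ f l x + g l) ∧ P x + D₀ = D} := by
      rw [h]
      exact ⟨cutD s, cutD_nonneg s, cutD_dist s⟩
    obtain ⟨x, h1, h2, h3, h4⟩ := this
    exact ⟨x, ⟨h1, h2, h3⟩, h4⟩
  choose q hq hPq using hex
  -- validity of the triangle inequalities
  have htri : ∀ x, Feas x → ∀ t : Tri n, 0 ≤ slack t (P x + D₀) := by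
    intro x hx t
    have : P x + D₀ ∈ {D | ∃ W : Fin n → Fin n → ℝ, (∀ u v, 0 ≤ W u v) ∧ dist W = D} := by
      rw [← h]
      exact ⟨x, hx.1, hx.2.1, hx.2.2, rfl⟩
    obtain ⟨W, hW, hWD⟩ := this
    rw [← hWD]
    unfold slack
    have h01 : t 0 ≠ t 1 := fun h => by simpa using t.injective h
    have h12 : t 1 ≠ t 2 := fun h => by simpa using t.injective h
    have h02 : t 0 ≠ t 2 := fun h => by simpa using t.injective h
    have := dist_triangle hW (t 0) (t 1) (t 2) h01 h12 h02
    linarith
  -- the averaged points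
  let Z : Tri n → Finset (Fin n → Bool) := fun t => univ.filter fun s => ¬ SepBy t s
  have hZne : ∀ t, (Z t).Nonempty := fun t => ⟨fun _ => false, by
    simp only [Z, mem_filter, mem_univ, true_and]
    rintro ⟨h1, -⟩
    simp at h1⟩
  let co : Tri n → ℝ := fun t => ((Z t).card : ℝ)⁻¹
  have hco : ∀ t, 0 < co t := fun t => by
    have := (hZne t).card_pos
    simp only [co]
    positivity
  have hco1 : ∀ t (r : ℝ), co t * ∑ _s ∈ Z t, r = r := fun t r => by
    have := (hZne t).card_pos
    rw [sum_const, nsmul_eq_mul, ← mul_assoc]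
    simp only [co]
    rw [inv_mul_cancel₀ (by positivity), one_mul]
  let qb : Tri n → X := fun t => co t • ∑ s ∈ Z t, q s
  -- affine functions of the averaged point
  have hlin : ∀ t (φ : X →ₗ[ℝ] ℝ) (r : ℝ), φ (qb t) + r = co t * ∑ s ∈ Z t, (φ (q s) + r) := by
    intro t φ r
    rw [sum_add_distrib, mul_add, hco1]
    simp only [qb]
    rw [map_smul, map_sum, smul_eq_mul]
  have hlinE : ∀ t l, A l (qb t) + c l = co t • ∑ s ∈ Z t, (A l (q s) + c l) := by
    intro t l
    have := (hZne t).card_pos
    rw [sum_add_distrib, smul_add, sum_const, ← Nat.cast_smul_eq_nsmul ℝ, smul_smul]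
    simp only [co, qb]
    rw [inv_mul_cancel₀ (by positivity), one_smul, map_smul, map_sum]
  have hslin : ∀ t (x y : X) (r : ℝ), slack t (P ((1 + r) • x - r • y) + D₀) =
      (1 + r) * slack t (P x + D₀) - r * slack t (P y + D₀) := by
    intro t x y r
    rw [map_sub, map_smul, map_smul]
    unfold slack
    simp only [Pi.add_apply, Pi.sub_apply, Pi.smul_apply, smul_eq_mul]
    ring
  have hsavg : ∀ t, slack t (P (qb t) + D₀) = 0 := by
    intro t
    have h1 : slack t (P (qb t) + D₀) = co t * ∑ s ∈ Z t, slack t (P (q s) + D₀) := by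
      let φ : X →ₗ[ℝ] ℝ :=
        { toFun := fun x => slack t (P x)
          map_add' := fun x y => by
            rw [map_add]; unfold slack; simp only [Pi.add_apply]; ring
          map_smul' := fun r x => by
            rw [map_smul]; unfold slack
            simp only [Pi.smul_apply, smul_eq_mul, RingHom.id_apply]; ring }
      have hφ : ∀ x, slack t (P x + D₀) = φ x + slack t D₀ := fun x => by
        change _ = slack t (P x) + slack t D₀
        unfold slack; simp only [Pi.add_apply]; ring
      simp_rw [hφ]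
      exact hlin t φ _
    rw [h1, sum_eq_zero, mul_zero]
    intro s hs
    rw [hPq, slack_cut, if_neg (mem_filter.1 hs).2]
  -- feasibility of the averaged points
  have hqbE : ∀ t e, eqn e (qb t) = rhs e := by
    intro t e
    have h1 := hlin t (eqn e) 0
    simp only [add_zero] at h1
    rw [h1, sum_congr rfl (fun s _ => (hq s).1 e), hco1]
  have hqb1 : ∀ t l, 0 ≤ a l (qb t) + b l := by
    intro t l
    rw [hlin]
    exact mul_nonneg (hco t).le (sum_nonneg fun s _ => (hq s).2.1 l)
  have hqb2 : ∀ t l, ‖A l (qb t) + c l‖ ≤ f l (qb t) + g l := by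
    intro t l
    rw [hlinE, hlin, norm_smul, Real.norm_eq_abs, abs_of_pos (hco t)]
    exact mul_le_mul_of_nonneg_left ((norm_sum_le _ _).trans
      (sum_le_sum fun s _ => (hq s).2.2 l)) (hco t).le
  -- abbreviations for the second-order cone data
  let zt : ∀ l, Tri n → EuclideanSpace ℝ (Fin (dim l)) := fun l t => A l (qb t) + c l
  let τt : ι₂ → Tri n → ℝ := fun l t => f l (qb t) + g l
  let zs : ∀ l, (Fin n → Bool) → EuclideanSpace ℝ (Fin (dim l)) := fun l s => A l (q s) + c l
  let τs : ι₂ → (Fin n → Bool) → ℝ := fun l s => f l (q s) + g l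
  have hτs0 : ∀ l s, 0 ≤ τs l s := fun l s => (norm_nonneg _).trans ((hq s).2.2 l)
  have hτt0 : ∀ l t, 0 ≤ τt l t := fun l t => (norm_nonneg _).trans (hqb2 t l)
  -- for unseparated pairs the point of `s` lies in the minimal face of the averaged point
  have hray : ∀ l t s, ¬ SepBy t s → ‖zt l t‖ = τt l t → τt l t • zs l s = τs l s • zt l t := by
    intro l t s hs heq
    have hmem : s ∈ Z t := mem_filter.2 ⟨mem_univ _, hs⟩
    have h1 := avg_ray (Z t) (fun s => A l (q s) + c l) (fun s => f l (q s) + g l) (co t) (hco t)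
      (fun s _ => (hq s).2.2 l) (by rw [← hlinE, ← hlin]; exact heq) s hmem
    rw [← hlinE, ← hlin] at h1
    exact h1
  have hzero : ∀ l t s, ¬ SepBy t s → τt l t = 0 → τs l s = 0 := by
    intro l t s hs h0
    have hmem : s ∈ Z t := mem_filter.2 ⟨mem_univ _, hs⟩
    have h1 : co t * ∑ s ∈ Z t, (f l (q s) + g l) = 0 := by rw [← hlin]; exact h0
    have h2 : ∑ s ∈ Z t, (f l (q s) + g l) = 0 := by
      rcases mul_eq_zero.1 h1 with h | h
      · exact absurd h (hco t).ne'
      · exact h
    exact (sum_eq_zero_iff_of_nonneg (fun s _ => hτs0 l s)).1 h2 s hmem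
  -- the cover
  let lt : ∀ l, Tri n → Option (EuclideanSpace ℝ (Fin (dim l))) := fun l t =>
    if τt l t = 0 then none else some ((τt l t)⁻¹ • zt l t)
  let ls : ∀ l, (Fin n → Bool) → Option (EuclideanSpace ℝ (Fin (dim l))) := fun l s =>
    some ((τs l s)⁻¹ • zs l s)
  refine cover_bound (fun l => univ.filter fun t => a l (qb t) + b l = 0)
    (fun l => univ.filter fun s => 0 < a l (q s) + b l) ?_
    (fun l => univ.filter fun t => ‖zt l t‖ = τt l t)
    (fun l => univ.filter fun s => τs l s ≠ 0) lt ls ?_ ?_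
  · -- rectangles consist of separated pairs
    intro l t ht s hs
    rw [mem_filter] at ht hs
    by_contra hcon
    have hmem : s ∈ Z t := mem_filter.2 ⟨mem_univ _, hcon⟩
    have h1 : co t * ∑ s ∈ Z t, (a l (q s) + b l) = 0 := by rw [← hlin]; exact ht.2
    have h2 : ∑ s ∈ Z t, (a l (q s) + b l) = 0 := by
      rcases mul_eq_zero.1 h1 with h | h
      · exact absurd h (hco t).ne'
      · exact h
    have h3 := (sum_eq_zero_iff_of_nonneg (fun s _ => (hq s).2.1 l)).1 h2 s hmem
    exact absurd h3 hs.2.ne'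
  · -- patterns consist of separated pairs
    intro l t ht s hs hne
    rw [mem_filter] at ht hs
    by_contra hcon
    apply hne
    have h1 := hray l t s hcon ht.2
    by_cases h0 : τt l t = 0
    · exact absurd (hzero l t s hcon h0) hs.2
    · simp only [lt, ls]
      rw [if_neg h0]
      congr 1
      have h2 : (τt l t)⁻¹ • (τs l s)⁻¹ • (τt l t • zs l s) =
          (τt l t)⁻¹ • (τs l s)⁻¹ • (τs l s • zt l t) := by rw [h1]
      rw [smul_smul (τs l s)⁻¹, smul_smul (τs l s)⁻¹, inv_mul_cancel₀ hs.2, one_smul,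
        smul_smul, mul_comm (τs l s)⁻¹, ← mul_assoc, inv_mul_cancel₀ h0, one_mul] at h2
      exact h2.symm
  · -- every separated pair is caught
    intro t s hsep
    by_contra hcon
    push Not at hcon
    obtain ⟨hc1, hc2⟩ := hcon
    -- move slightly beyond the averaged point
    have hev : ∀ᶠ r : ℝ in 𝓝[>] 0, Feas ((1 + r) • qb t - r • q s) := by
      have hpos : ∀ᶠ r : ℝ in 𝓝[>] 0, 0 < r := self_mem_nhdsWithin
      have haff : ∀ (φ : X →ₗ[ℝ] ℝ) (d r : ℝ), φ ((1 + r) • qb t - r • q s) + d =
          (1 + r) * (φ (qb t) + d) - r * (φ (q s) + d) := fun φ d r => affine_combo φ d r _ _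
      have haffE : ∀ l (r : ℝ), A l ((1 + r) • qb t - r • q s) + c l =
          (1 + r) • zt l t - r • zs l s := fun l r => affine_comboE (A l) (c l) r _ _
      have e1 : ∀ᶠ r : ℝ in 𝓝[>] 0, ∀ l, 0 ≤ a l ((1 + r) • qb t - r • q s) + b l := by
        rw [eventually_all]
        intro l
        by_cases hl : a l (qb t) + b l = 0
        · -- then the value at `q s` is zero
          have h2 : ¬ 0 < a l (q s) + b l := fun h2 =>
            hc1 l (mem_filter.2 ⟨mem_univ _, hl⟩) (mem_filter.2 ⟨mem_univ _, h2⟩)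
          have h3 : a l (q s) + b l = 0 := le_antisymm (not_lt.1 h2) ((hq s).2.1 l)
          filter_upwards with r
          rw [haff, hl, h3]; simp
        · have hl' : 0 < a l (qb t) + b l := lt_of_le_of_ne (hqb1 t l) (Ne.symm hl)
          have hcont : Continuous fun r : ℝ =>
              (1 + r) * (a l (qb t) + b l) - r * (a l (q s) + b l) := by fun_prop
          have h0 : ∀ᶠ r : ℝ in 𝓝 0, 0 < (1 + r) * (a l (qb t) + b l) - r * (a l (q s) + b l) := by
            refine hcont.continuousAt.eventually (lt_mem_nhds ?_)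
            simpa using hl'
          filter_upwards [nhdsWithin_le_nhds h0] with r hr
          rw [haff]; exact hr.le
      have e2 : ∀ᶠ r : ℝ in 𝓝[>] 0, ∀ l, ‖A l ((1 + r) • qb t - r • q s) + c l‖ ≤
          f l ((1 + r) • qb t - r • q s) + g l := by
        rw [eventually_all]
        intro l
        by_cases hl : ‖zt l t‖ = τt l t
        · -- the point of `s` is a nonnegative multiple of the averaged point
          have hmul : ∃ μ : ℝ, zs l s = μ • zt l t ∧ τs l s = μ * τt l t := by
            by_cases hs0 : τs l s = 0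
            · refine ⟨0, ?_, by rw [hs0, zero_mul]⟩
              have := (hq s).2.2 l
              have h5 : ‖zs l s‖ ≤ 0 := by rw [← hs0]; exact this
              rw [norm_le_zero_iff.1 h5, zero_smul]
            · have hlab : lt l t = ls l s :=
                hc2 l (mem_filter.2 ⟨mem_univ _, hl⟩) (mem_filter.2 ⟨mem_univ _, hs0⟩)
              simp only [lt, ls] at hlab
              by_cases ht0 : τt l t = 0
              · rw [if_pos ht0] at hlab
                exact absurd hlab (by simp)
              · rw [if_neg ht0] at hlab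
                have hlab' := Option.some.inj hlab
                refine ⟨τs l s / τt l t, ?_, by field_simp⟩
                have : zs l s = τs l s • ((τs l s)⁻¹ • zs l s) := by
                  rw [smul_smul, mul_inv_cancel₀ hs0, one_smul]
                rw [this, ← hlab', smul_smul, div_eq_mul_inv]
          obtain ⟨μ, hμ1, hμ2⟩ := hmul
          have hcont : Continuous fun r : ℝ => (1 + r) - r * μ := by fun_prop
          have h0 : ∀ᶠ r : ℝ in 𝓝 0, 0 < (1 + r) - r * μ := by
            refine hcont.continuousAt.eventually (lt_mem_nhds ?_)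
            simp
          filter_upwards [nhdsWithin_le_nhds h0] with r hr
          rw [haffE, haff]
          change _ ≤ (1 + r) * τt l t - r * τs l s
          have e3 : (1 + r) • zt l t - r • zs l s = ((1 + r) - r * μ) • zt l t := by
            rw [hμ1, smul_smul, ← sub_smul]
          have e4 : (1 + r) * τt l t - r * τs l s = ((1 + r) - r * μ) * τt l t := by
            rw [hμ2]; ring
          rw [e3, e4, norm_smul, Real.norm_eq_abs, abs_of_pos hr, hl]
        · have hl' : ‖zt l t‖ < τt l t := lt_of_le_of_ne (hqb2 t l) hl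
          have hcont1 : Continuous fun r : ℝ => ‖(1 + r) • zt l t - r • zs l s‖ := by fun_prop
          have hcont2 : Continuous fun r : ℝ => (1 + r) * τt l t - r * τs l s := by fun_prop
          have h0 : ∀ᶠ r : ℝ in 𝓝 0, ‖(1 + r) • zt l t - r • zs l s‖ <
              (1 + r) * τt l t - r * τs l s := by
            apply hcont1.continuousAt.eventually_lt hcont2.continuousAt
            simpa using hl'
          filter_upwards [nhdsWithin_le_nhds h0] with r hr
          rw [haffE, haff]
          exact hr.le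
      filter_upwards [e1, e2] with r h1 h2
      refine ⟨fun e => ?_, h1, h2⟩
      have := haff (eqn e) 0 r
      simp only [add_zero] at this
      rw [this, hqbE, (hq s).1 e]; ring
    have hpos : ∀ᶠ r : ℝ in 𝓝[>] 0, 0 < r := self_mem_nhdsWithin
    obtain ⟨r, hr, hr0⟩ := (hev.and hpos).exists
    have h1 := htri _ hr t
    rw [hslin, hsavg, hPq, slack_cut, if_pos hsep] at h1
    linarith

end Pool.Agent.H98.Old.ConicFormulationResult
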