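import Mathlib
import Pool.Agent.H98.MinGates2

/-!
# Any min computation with free linear algebra on the inputs needs `Ω(n³)` min gates for APSP

A *min computation* on a set `Ω` of inputs is a straight-line program each of whose steps is the
minimum of two *free combinations*: an arbitrary affine form of the inputs (with arbitrary real
coefficients, in particular differences of inputs) plus an arbitrary nonnegative linear combination
of results of earlier steps. Only the `min` operations are counted. We show that a min computation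
all of whose pairwise distances `dist W u w` are free combinations of its gates needs about
`n³ / 6` min gates (Floyd–Warshall uses fewer than `n³`).
-/

namespace Pool.Agent.H98.Old.MinGatesResult

open Finset Filter Topology
open Pool.Agent.H98.MinGates

/-- Total weight of the walk `u → l₁ → ⋯ → lₖ → v`. -/
def walkWeight {n : ℕ} (W : Fin n → Fin n → ℝ) : Fin n → List (Fin n) → Fin n → ℝ
  | u, [], v => W u v
  | u, x :: l, v => W u x + walkWeight W x l v

/-- The distance matrix of the weighted complete digraph with edge weights `W`: the diagonal is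
`0`, and off the diagonal it is the infimum of the total weights of the walks from `u` to `v`
(for positive weights this is the minimum weight of a path from `u` to `v`). -/
noncomputable def dist {n : ℕ} (W : Fin n → Fin n → ℝ) (u v : Fin n) : ℝ :=
  if u = v then 0 else ⨅ l : List (Fin n), walkWeight W u l v

variable {n : ℕ}

theorem walkWeight_nonneg {W : Fin n → Fin n → ℝ} (hW : ∀ u v, 0 ≤ W u v) (l : List (Fin n)) :
    ∀ u v, 0 ≤ walkWeight W u l v := by
  induction l with
  | nil => intro u v; exact hW u v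
  | cons x l ih => intro u v; exact add_nonneg (hW u x) (ih x v)

theorem bddBelow_walk {W : Fin n → Fin n → ℝ} (hW : ∀ u v, 0 ≤ W u v) (u v : Fin n) :
    BddBelow (Set.range fun l : List (Fin n) => walkWeight W u l v) :=
  ⟨0, by rintro _ ⟨l, rfl⟩; exact walkWeight_nonneg hW l u v⟩

/-- Circular offset between `1` and `2m` modulo `3m`. -/
def ok (m a b : ℕ) : Prop := ∃ d, 1 ≤ d ∧ d ≤ 2 * m ∧ (b = a + d ∨ b + 3 * m = a + d)

open Classical in
/-- The base point. -/
noncomputable def base (n m : ℕ) (u v : Fin n) : ℝ :=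
  if (u : ℕ) < 3 * m ∧ (v : ℕ) < 3 * m ∧ ok m u v then 1 else 3

open Classical in
/-- The intermediate vertices of shortest walks at the base point. -/
noncomputable def mid (m : ℕ) (u w : Fin n) : Finset (Fin n) :=
  univ.filter fun v => (u : ℕ) < 3 * m ∧ (v : ℕ) < 3 * m ∧ (w : ℕ) < 3 * m ∧ ok m u v ∧ ok m v w

theorem mem_mid (m : ℕ) (u w v : Fin n) : v ∈ mid m u w ↔
    (u : ℕ) < 3 * m ∧ (v : ℕ) < 3 * m ∧ (w : ℕ) < 3 * m ∧ ok m u v ∧ ok m v w := by
  unfold mid
  simp

theorem base_ge (m : ℕ) (u v : Fin n) : 1 ≤ base n m u v := by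
  unfold base
  split_ifs <;> norm_num

theorem base_pos (m : ℕ) (u v : Fin n) : 0 < base n m u v := lt_of_lt_of_le one_pos (base_ge m u v)

theorem base_mid {m : ℕ} {u w v : Fin n} (h : v ∈ mid m u w) :
    base n m u v = 1 ∧ base n m v w = 1 := by
  rw [mem_mid] at h
  obtain ⟨h1, h2, h3, h4, h5⟩ := h
  unfold base
  rw [if_pos ⟨h1, h2, h4⟩, if_pos ⟨h2, h3, h5⟩]
  exact ⟨rfl, rfl⟩

/-- A pair with circular offset `2m + 1 + e`. -/
def Good (m e : ℕ) (u w : Fin n) : Prop :=
  (u : ℕ) < 3 * m ∧ (w : ℕ) < 3 * m ∧ e + 1 < m ∧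
    ((w : ℕ) = u + (2 * m + 1 + e) ∨ (w : ℕ) + 3 * m = u + (2 * m + 1 + e))

theorem Good.not_ok {m e : ℕ} {u w : Fin n} (h : Good m e u w) : ¬ ok m u w := by
  rintro ⟨d, h1, h2, h3⟩
  obtain ⟨g1, g2, g3, g4⟩ := h
  omega

theorem Good.ne {m e : ℕ} {u w : Fin n} (h : Good m e u w) : u ≠ w := by
  rintro rfl
  obtain ⟨g1, g2, g3, g4⟩ := h
  omega

theorem not_ok_self (m a : ℕ) (h : a < 3 * m) : ¬ ok m a a := by
  rintro ⟨d, h1, h2, h3⟩
  omega

theorem Good.base_eq {m e : ℕ} {u w : Fin n} (h : Good m e u w) : base n m u w = 3 := by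
  unfold base
  rw [if_neg (fun hh => h.not_ok hh.2.2)]

theorem base_notMid {m : ℕ} {u w v : Fin n} (hu : (u : ℕ) < 3 * m) (hw : (w : ℕ) < 3 * m)
    (h : v ∉ mid m u w) : 4 ≤ base n m u v + base n m v w := by
  rw [mem_mid] at h
  have h1 := base_ge m u v
  have h2 := base_ge m v w
  by_cases hv : (v : ℕ) < 3 * m
  · by_cases h3 : ok m u v
    · have h4 : ¬ ok m v w := fun h4 => h ⟨hu, hv, hw, h3, h4⟩
      have : base n m v w = 3 := by
        unfold base
        rw [if_neg (fun hh => h4 hh.2.2)]
      linarith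
    · have : base n m u v = 3 := by
        unfold base
        rw [if_neg (fun hh => h3 hh.2.2)]
      linarith
  · have : base n m u v = 3 := by
      unfold base
      rw [if_neg (fun hh => hv hh.2.1)]
    linarith

theorem Good.card_mid {m e : ℕ} (hn : 3 * m ≤ n) {u w : Fin n} (h : Good m e u w) :
    2 * m - e ≤ (mid m u w).card := by
  classical
  obtain ⟨g1, g2, g3, g4⟩ := h
  let f : ℕ → Fin n := fun d => if h : (u : ℕ) + d < 3 * m then ⟨u + d, by omega⟩ else
    if h2 : (u : ℕ) + d - 3 * m < n then ⟨u + d - 3 * m, h2⟩ else u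
  have hf : ∀ d ∈ Finset.Icc (e + 1) (2 * m), ((f d : ℕ) = u + d ∨ (f d : ℕ) + 3 * m = u + d) ∧
      (f d : ℕ) < 3 * m := by
    intro d hd
    rw [Finset.mem_Icc] at hd
    simp only [f]
    split_ifs with h1 h2
    · exact ⟨Or.inl rfl, h1⟩
    · refine ⟨Or.inr ?_, ?_⟩
      · change (u : ℕ) + d - 3 * m + 3 * m = u + d
        omega
      · change (u : ℕ) + d - 3 * m < 3 * m
        omega
    · exfalso; omega
  have hcard : (Finset.Icc (e + 1) (2 * m)).card = 2 * m - e := by
    rw [Nat.card_Icc]; omega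
  rw [← hcard]
  refine Finset.card_le_card_of_injOn f ?_ ?_
  · intro d hd
    have hd' : d ∈ Finset.Icc (e + 1) (2 * m) := hd
    have h1 := hf d hd'
    rw [Finset.mem_Icc] at hd'
    rw [Finset.mem_coe, mem_mid]
    refine ⟨g1, h1.2, g2, ⟨d, by omega, by omega, h1.1⟩, ⟨2 * m + 1 + e - d, by omega, by omega, ?_⟩⟩
    omega
  · intro d hd d' hd' hdd
    have h1 := hf d hd
    have h2 := hf d' hd'
    rw [Finset.mem_coe, Finset.mem_Icc] at hd hd'
    rw [hdd] at h1
    omega

/-- Weights near the base point. -/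
def Near (m : ℕ) (W : Fin n → Fin n → ℝ) : Prop := ∀ u v, |W u v - base n m u v| ≤ 1 / 8

theorem Near.ge {m : ℕ} {W : Fin n → Fin n → ℝ} (h : Near m W) (u v : Fin n) :
    base n m u v - 1 / 8 ≤ W u v := by
  have := (abs_le.1 (h u v)).1
  linarith

theorem Near.le {m : ℕ} {W : Fin n → Fin n → ℝ} (h : Near m W) (u v : Fin n) :
    W u v ≤ base n m u v + 1 / 8 := by
  have := (abs_le.1 (h u v)).2
  linarith

theorem Near.nonneg {m : ℕ} {W : Fin n → Fin n → ℝ} (h : Near m W) (u v : Fin n) : 0 ≤ W u v := by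
  have := h.ge u v
  have := base_ge m u v
  linarith

/-- Near the base point, walks of a good pair other than the two-step walks through `mid` are
long. -/
theorem walk_long {m e : ℕ} {W : Fin n → Fin n → ℝ} (hW : Near m W) {u w : Fin n}
    (h : Good m e u w) (l : List (Fin n)) (hl : ∀ v ∈ mid m u w, l ≠ [v]) :
    21 / 8 ≤ walkWeight W u l w := by
  match l, hl with
  | [], _ =>
    change 21 / 8 ≤ W u w
    have h1 := hW.ge u w
    rw [h.base_eq] at h1
    linarith
  | [v], hl =>
    have hv : v ∉ mid m u w := fun hv => hl v hv rfl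
    change 21 / 8 ≤ W u v + W v w
    have h1 := hW.ge u v
    have h2 := hW.ge v w
    have h3 := base_notMid h.1 h.2.1 hv
    linarith
  | v :: x :: l, _ =>
    have h4 : ∀ (l : List (Fin n)) (x : Fin n), 7 / 8 ≤ walkWeight W x l w := by
      intro l x
      match l with
      | [] =>
        change 7 / 8 ≤ W x w
        have h1 := hW.ge x w
        have h2 := base_ge m x w
        linarith
      | y :: l =>
        change 7 / 8 ≤ W x y + walkWeight W y l w
        have h1 := hW.ge x y
        have h2 := base_ge m x y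
        have h3 := walkWeight_nonneg hW.nonneg l y w
        linarith
    change 21 / 8 ≤ W u v + (W v x + walkWeight W x l w)
    have h1 := hW.ge u v
    have h1' := base_ge m u v
    have h2 := hW.ge v x
    have h2' := base_ge m v x
    have h3 := h4 l x
    linarith

theorem dist_le_mid {m e : ℕ} {W : Fin n → Fin n → ℝ} (hW : Near m W) {u w : Fin n}
    (h : Good m e u w) (v : Fin n) : dist W u w ≤ W u v + W v w := by
  unfold dist
  rw [if_neg h.ne]
  exact ciInf_le (bddBelow_walk hW.nonneg u w) [v]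

theorem dist_eq_mid {m e : ℕ} (hn : 3 * m ≤ n) {W : Fin n → Fin n → ℝ} (hW : Near m W)
    {u w : Fin n} (h : Good m e u w) : ∃ v ∈ mid m u w, dist W u w = W u v + W v w := by
  have hne : (mid m u w).Nonempty := by
    rw [← Finset.card_pos]
    have := h.card_mid hn
    have := h.2.2.1
    omega
  obtain ⟨v, hv, hmin⟩ := Finset.exists_min_image (mid m u w) (fun v => W u v + W v w) hne
  refine ⟨v, hv, le_antisymm (dist_le_mid hW h v) ?_⟩
  unfold dist
  rw [if_neg h.ne]
  refine le_ciInf fun l => ?_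
  by_cases hl : ∃ v' ∈ mid m u w, l = [v']
  · obtain ⟨v', hv', rfl⟩ := hl
    exact hmin v' hv'
  · push Not at hl
    refine le_trans ?_ (walk_long hW h l hl)
    have h1 := hW.le u v
    have h2 := hW.le v w
    rw [(base_mid hv).1] at h1
    rw [(base_mid hv).2] at h2
    linarith

theorem near_base (m : ℕ) : Near m (base n m) := by
  intro u v
  rw [sub_self, abs_zero]
  norm_num

theorem near_eventually (m : ℕ) (y : Fin n → Fin n → ℝ) :
    ∀ᶠ ε : ℝ in 𝓝[>] 0, Near m (base n m + ε • y) := by
  unfold Near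
  rw [eventually_all]
  intro u
  rw [eventually_all]
  intro v
  have hc : Continuous fun ε : ℝ => |ε * y u v| := by fun_prop
  have h0 : ∀ᶠ ε : ℝ in 𝓝 0, |ε * y u v| < 1 / 8 := by
    refine hc.continuousAt.eventually (gt_mem_nhds ?_)
    simp
  filter_upwards [nhdsWithin_le_nhds h0] with ε hε
  simp only [Pi.add_apply, Pi.smul_apply, smul_eq_mul, add_sub_cancel_left]
  exact hε.le

theorem segInterior (m : ℕ) :
    SegInterior {W : Fin n → Fin n → ℝ | ∀ i j, 0 < W i j} (base n m) := by
  refine ⟨fun i j => base_pos m i j, fun y => ?_⟩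
  filter_upwards [near_eventually m y] with ε hε
  intro i j
  have h1 := hε.ge i j
  have h2 := base_ge m i j
  linarith

/-- **Cubic lower bound on the number of min gates for APSP.** Let `g₀, …, g_{s-1}` be a min
computation on the digraphs on `n` vertices with positive real edge weights (every `g_t` is the
minimum of two functions, each an affine form of the weights plus a nonnegative linear combination
of earlier gates), and suppose that each distance `dist W u w`, `u ≠ w`, is an affine form plus a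
nonnegative linear combination of gates. Then, with `m = ⌊n / 3⌋`, the number `s` of min gates is
at least `9 m² (m - 1) / 2`, which is about `n³ / 6`. -/
theorem result (n s : ℕ) (g : Fin s → (Fin n → Fin n → ℝ) → ℝ)
    (hg : IsMinComputation {W : Fin n → Fin n → ℝ | ∀ i j, 0 < W i j} g)
    (hout : ∀ u w : Fin n, u ≠ w →
      IsFreeCombination {W : Fin n → Fin n → ℝ | ∀ i j, 0 < W i j} g s (fun W => dist W u w)) :
    9 * (n / 3) ^ 2 * (n / 3 - 1) ≤ 2 * s := by
  classical
  set m := n / 3 with hm
  have hn : 3 * m ≤ n := by omega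
  obtain ⟨H, hH⟩ := exists_homog (segInterior m) g hg
  -- the pairs
  have hpair : ∀ (a : Fin (3 * m)) (e : Fin (m - 1)), ∃ w : Fin n,
      Good m e (⟨a, lt_of_lt_of_le a.2 hn⟩ : Fin n) w := by
    intro a e
    have ha := a.2
    have he := e.2
    by_cases h : (a : ℕ) + (2 * m + 1 + e) < 3 * m
    · refine ⟨⟨a + (2 * m + 1 + e), by omega⟩, ha, h, by omega, Or.inl rfl⟩
    · refine ⟨⟨a + (2 * m + 1 + e) - 3 * m, by omega⟩, ha, ?_, by omega, Or.inr ?_⟩
      · change (a : ℕ) + (2 * m + 1 + e) - 3 * m < 3 * m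
        omega
      · change (a : ℕ) + (2 * m + 1 + e) - 3 * m + 3 * m = a + (2 * m + 1 + e)
        omega
  choose W hW using hpair
  have hdata : ∀ i : Fin (3 * m) × Fin (m - 1), ∃ o : Output H,
      o.u = ⟨i.1, lt_of_lt_of_le i.1.2 hn⟩ ∧ o.w = W i.1 i.2 ∧ o.mid = mid m o.u o.w := by
    intro i
    have hgood := hW i.1 i.2
    set u : Fin n := ⟨i.1, lt_of_lt_of_le i.1.2 hn⟩ with hu
    set w := W i.1 i.2 with hw
    obtain ⟨l, c, μ, hμ, _, hdist⟩ := hout u w hgood.ne
    have hdd := hasDD_combo (segInterior m) g H.g l c μ (fun W => dist W u w) hdist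
      (fun r => Or.inr (hH r))
    have hval : ∀ (y : Fin n → Fin n → ℝ) (ε : ℝ), ∀ v ∈ mid m u w,
        (base n m + ε • y) u v + (base n m + ε • y) v w = 2 + ε * (y u v + y v w) := by
      intro y ε v hv
      simp only [Pi.add_apply, Pi.smul_apply, smul_eq_mul]
      rw [(base_mid hv).1, (base_mid hv).2]
      ring
    have h0 : dist (base n m) u w = 2 := by
      obtain ⟨v, hv, h1⟩ := dist_eq_mid hn (near_base m) hgood
      rw [h1, (base_mid hv).1, (base_mid hv).2]
      norm_num
    have hposε : ∀ᶠ r : ℝ in 𝓝[>] 0, 0 < r := self_mem_nhdsWithin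
    refine ⟨⟨u, w, mid m u w, hgood.ne, ?_, ?_, l, μ, hμ, ?_, ?_⟩, rfl, rfl, rfl⟩
    · intro hmem
      rw [mem_mid] at hmem
      exact not_ok_self m u hmem.1 hmem.2.2.2.1
    · intro hmem
      rw [mem_mid] at hmem
      exact not_ok_self m w hmem.2.2.1 hmem.2.2.2.2
    · intro y v hv
      obtain ⟨ε, ⟨h1, h2⟩, h3⟩ := (((hdd y).and (near_eventually m y)).and hposε).exists
      have h4 := dist_le_mid h2 hgood v
      rw [hval y ε v hv] at h4
      have h5 : dist (base n m + ε • y) u w = 2 + ε * (l y + ∑ r, μ r * H.g r y) := by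
        rw [← h0]; exact h1
      rw [h5] at h4
      have h6 : ε * (l y + ∑ r, μ r * H.g r y) ≤ ε * (y u v + y v w) := by linarith
      exact le_of_mul_le_mul_left h6 h3
    · intro _ y
      obtain ⟨ε, ⟨h1, h2⟩, h3⟩ := (((hdd y).and (near_eventually m y)).and hposε).exists
      obtain ⟨v, hv, h4⟩ := dist_eq_mid hn h2 hgood
      rw [hval y ε v hv] at h4
      have h5 : dist (base n m + ε • y) u w = 2 + ε * (l y + ∑ r, μ r * H.g r y) := by
        rw [← h0]; exact h1
      rw [h5] at h4
      refine ⟨v, hv, ?_⟩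
      have h6 : ε * (l y + ∑ r, μ r * H.g r y) = ε * (y u v + y v w) := by linarith
      exact mul_left_cancel₀ h3.ne' h6
  choose out hou how homid using hdata
  have hcount := count out (by
    intro i j hij heq
    apply hij
    rw [Prod.ext_iff] at heq
    obtain ⟨h1, h2⟩ := heq
    simp only at h1 h2
    rw [hou, hou] at h1
    have h1' : (i.1 : ℕ) = j.1 := by
      have := congrArg Fin.val h1
      exact this
    rw [how, how] at h2
    have gi := hW i.1 i.2
    have gj := hW j.1 j.2
    obtain ⟨a1, a2, a3, a4⟩ := gi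
    obtain ⟨b1, b2, b3, b4⟩ := gj
    rw [h2] at a2 a4
    simp only at a1 a4 b1 b4
    have h3 : (i.2 : ℕ) = j.2 := by omega
    exact Prod.ext (Fin.ext h1') (Fin.ext h3))
  have hlow : ∀ i : Fin (3 * m) × Fin (m - 1), 2 * m - 1 - (i.2 : ℕ) ≤ (out i).mid.card - 1 := by
    intro i
    rw [homid, hou, how]
    have := (hW i.1 i.2).card_mid hn
    omega
  have hsum : ∑ i : Fin (3 * m) × Fin (m - 1), (2 * m - 1 - (i.2 : ℕ)) ≤ s :=
    (Finset.sum_le_sum fun i _ => hlow i).trans hcount
  rw [Fintype.sum_prod_type] at hsum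
  simp only [Finset.sum_const, Finset.card_univ, Fintype.card_fin, smul_eq_mul] at hsum
  have hs2 : ∀ M : ℕ, 2 * ∑ x : Fin (M - 1), (2 * M - 1 - (x : ℕ)) = 3 * M * (M - 1) := by
    intro M
    rw [Fin.sum_univ_eq_sum_range (fun x => 2 * M - 1 - x) (M - 1)]
    rcases M with _ | M
    · simp
    · have hgen : ∀ k, k ≤ M → 2 * ∑ x ∈ Finset.range k, (2 * (M + 1) - 1 - x) =
          k * (4 * M + 3 - k) := by
        intro k
        induction k with
        | zero => simp
        | succ k ih =>
          intro hk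
          rw [Finset.sum_range_succ, mul_add, ih (by omega)]
          obtain ⟨c, rfl⟩ : ∃ c, M = k + 1 + c := ⟨M - (k + 1), by omega⟩
          have e1 : 4 * (k + 1 + c) + 3 - k = 3 * k + 4 * c + 7 := by omega
          have e2 : 2 * (k + 1 + c + 1) - 1 - k = k + 2 * c + 3 := by omega
          have e3 : 4 * (k + 1 + c) + 3 - (k + 1) = 3 * k + 4 * c + 6 := by omega
          rw [e1, e2, e3]; ring
      have e0 : M + 1 - 1 = M := by omega
      rw [e0, hgen M le_rfl]
      have e1 : 4 * M + 3 - M = 3 * M + 3 := by omega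
      rw [e1]; ring
  have h1 := hs2 m
  have h2 : 9 * m ^ 2 * (m - 1) = 2 * (3 * m * ∑ x : Fin (m - 1), (2 * m - 1 - (x : ℕ))) := by
    calc 9 * m ^ 2 * (m - 1) = 3 * m * (3 * m * (m - 1)) := by ring
      _ = 3 * m * (2 * ∑ x : Fin (m - 1), (2 * m - 1 - (x : ℕ))) := by rw [h1]
      _ = _ := by ring
  rw [h2]
  exact Nat.mul_le_mul_left 2 hsum

end Pool.Agent.H98.Old.MinGatesResult
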